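import Pool.Agent.Helper45.SH.F2

/-! # MP_506470_co, module F3: ray type or all traces -/

namespace SetHom

variable {V : Type}

/-- `S \ {c}` is a trace on `S`. -/
def F3T (G : SimpleGraph V) (S : Set V) (c : V) : Prop :=
  ∃ u, ¬ G.Adj u c ∧ ∀ s ∈ S, s ≠ c → G.Adj u s

theorem f3_T_map {G : SimpleGraph V} (φ : G ≃g G) {S : Set V} {c : V} (h : F3T G S c) :
    F3T G (φ '' S) (φ c) := by
  obtain ⟨u, h1, h2⟩ := h
  refine ⟨φ u, fun e => h1 (φ.map_adj_iff.1 e), ?_⟩
  rintro _ ⟨t, ht, rfl⟩ hne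
  exact φ.map_adj_iff.2 (h2 t ht (fun e => hne (by rw [e])))

/-- An independent triple. -/
def F3I (G : SimpleGraph V) (a b c : V) : Prop :=
  a ≠ b ∧ b ≠ c ∧ a ≠ c ∧ ¬ G.Adj a b ∧ ¬ G.Adj b c ∧ ¬ G.Adj a c

theorem f3_I_swap {G : SimpleGraph V} {a b c : V} (h : F3I G a b c) : F3I G b a c :=
  ⟨h.1.symm, h.2.2.1, h.2.1, fun e => h.2.2.2.1 e.symm, h.2.2.2.2.2, h.2.2.2.2.1⟩

theorem f3_I_rev {G : SimpleGraph V} {a b c : V} (h : F3I G a b c) : F3I G c b a :=
  ⟨h.2.1.symm, h.1.symm, h.2.2.1.symm, fun e => h.2.2.2.2.1 e.symm, fun e => h.2.2.2.1 e.symm,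
    fun e => h.2.2.2.2.2 e.symm⟩

theorem f3_triple {G : SimpleGraph V} (h : Base G) {a b c a' b' c' : V} (h1 : F3I G a b c)
    (h2 : F3I G a' b' c') : ∃ φ : G ≃g G, φ '' ({a, b, c} : Set V) = ({a', b', c'} : Set V) :=
  h.hW.triple h1.1 h1.2.1 h1.2.2.1 h1.2.2.2.1 h1.2.2.2.2.1 h1.2.2.2.2.2 h2.1 h2.2.1 h2.2.2.1
    h2.2.2.2.1 h2.2.2.2.2.1 h2.2.2.2.2.2

/-- An independent triple with two traces of size two. -/
theorem f3_start {G : SimpleGraph V} (h : Base G) : ∃ p q r, F3I G p q r ∧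
    F3T G {p, q, r} q ∧ F3T G {p, q, r} r := by
  obtain ⟨q, c, r, a, hqc, hra, hqr, hqa, hcr, hca⟩ := two_k2 h
  have hac : a ≠ c := by
    rintro rfl
    exact hcr hra.symm
  obtain ⟨p, hpa, hpc⟩ := (h.inter a c hac (fun e => hca e.symm)).nonempty
  have hpq : ¬ G.Adj p q := fun e => h.tf c p q hpc e hqc.symm
  have hpr : ¬ G.Adj p r := fun e => h.tf a p r hpa e hra.symm
  refine ⟨p, q, r, ⟨?_, ?_, ?_, hpq, hqr, hpr⟩, ⟨a, fun e => hqa e.symm, ?_⟩, ⟨c, hcr, ?_⟩⟩
  · rintro rfl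
    exact hqa hpa.symm
  · rintro rfl
    exact hcr hqc.symm
  · rintro rfl
    exact hcr hpc
  · rintro s (rfl | rfl | rfl) hs
    · exact hpa
    · exact absurd rfl hs
    · exact hra.symm
  · rintro s (rfl | rfl | rfl) hs
    · exact hpc
    · exact hqc.symm
    · exact absurd rfl hs

/-- Every independent triple has at least two traces of size two. -/
theorem f3_two {G : SimpleGraph V} (h : Base G) {a b c : V} (hI : F3I G a b c)
    (hb : ¬ F3T G {a, b, c} b) : F3T G {a, b, c} a ∧ F3T G {a, b, c} c := by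
  obtain ⟨p, q, r, hI', hq, hr⟩ := f3_start h
  obtain ⟨φ, hφ⟩ := f3_triple h hI' hI
  have h1 := f3_T_map φ hq
  have h2 := f3_T_map φ hr
  rw [hφ] at h1 h2
  have m1 : φ q ∈ ({a, b, c} : Set V) := by
    rw [← hφ]
    exact Set.mem_image_of_mem _ (by simp)
  have m2 : φ r ∈ ({a, b, c} : Set V) := by
    rw [← hφ]
    exact Set.mem_image_of_mem _ (by simp)
  have hne : φ q ≠ φ r := fun e => hI'.2.1 (φ.injective e)
  generalize φ q = x at *
  generalize φ r = y at *
  rcases m1 with rfl | rfl | m1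
  · rcases m2 with rfl | rfl | m2
    · exact absurd rfl hne
    · exact absurd h2 hb
    · rw [Set.mem_singleton_iff] at m2
      subst m2
      exact ⟨h1, h2⟩
  · exact absurd h1 hb
  · rw [Set.mem_singleton_iff] at m1
    subst m1
    rcases m2 with rfl | rfl | m2
    · exact ⟨h2, h1⟩
    · exact absurd h2 hb
    · exact absurd m2.symm hne

/-- The middle of an independent triple. -/
theorem f3_mid {G : SimpleGraph V} (h : Base G)
    (hB : ∀ a b c, F3I G a b c → ∃ s ∈ ({a, b, c} : Set V), ¬ F3T G {a, b, c} s)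
    {a b c : V} (hI : F3I G a b c) (hb : ¬ F3T G {a, b, c} b) : Mid G Set.univ a b c := by
  obtain ⟨ha, hc⟩ := f3_two h hI hb
  obtain ⟨n1, n2, n3, n4, n5, n6⟩ := hI
  have hconv : ∀ u, G.Adj u a → G.Adj u c → G.Adj u b := by
    intro u hua huc
    by_contra hub
    refine hb ⟨u, hub, ?_⟩
    rintro s (rfl | rfl | hs) hne
    · exact hua
    · exact absurd rfl hne
    · rw [Set.mem_singleton_iff.1 hs]
      exact huc
  refine ⟨Set.mem_univ _, Set.mem_univ _, Set.mem_univ _, n1, n2, n3, n4, n5, n6,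
    fun u _ => hconv u, ?_, ?_, ?_⟩
  · intro u _ hub
    by_contra hcon
    push Not at hcon
    obtain ⟨hua, huc⟩ := hcon
    have e1 : u ≠ a := by
      rintro rfl
      exact n4 hub
    have e2 : u ≠ c := by
      rintro rfl
      exact n5 hub.symm
    have hI2 : F3I G u a c := ⟨e1, n3, e2, hua, n6, huc⟩
    have hv : ∃ v, G.Adj v u ∧ G.Adj v a ∧ G.Adj v c := by
      obtain ⟨s, hs, hsT⟩ := hB u a c hI2
      rcases hs with rfl | rfl | hs
      · obtain ⟨v, hv1, hv2⟩ := (h.inter a c n3 n6).nonempty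
        refine ⟨v, ?_, hv1.symm, hv2.symm⟩
        by_contra hvs
        refine hsT ⟨v, hvs, ?_⟩
        rintro t (rfl | rfl | ht) hne
        · exact absurd rfl hne
        · exact hv1.symm
        · rw [Set.mem_singleton_iff.1 ht]
          exact hv2.symm
      · obtain ⟨v, hv1, hv2⟩ := (h.inter u c e2 huc).nonempty
        refine ⟨v, hv1.symm, ?_, hv2.symm⟩
        by_contra hvs
        refine hsT ⟨v, hvs, ?_⟩
        rintro t (rfl | rfl | ht) hne
        · exact hv1.symm
        · exact absurd rfl hne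
        · rw [Set.mem_singleton_iff.1 ht]
          exact hv2.symm
      · rw [Set.mem_singleton_iff] at hs
        subst hs
        obtain ⟨v, hv1, hv2⟩ := (h.inter u a e1 hua).nonempty
        refine ⟨v, hv1.symm, hv2.symm, ?_⟩
        by_contra hvs
        refine hsT ⟨v, hvs, ?_⟩
        rintro t (rfl | rfl | ht) hne
        · exact hv1.symm
        · exact hv2.symm
        · exact absurd (Set.mem_singleton_iff.1 ht) hne
    obtain ⟨v, hvu, hva, hvc⟩ := hv
    exact h.tf v u b hvu hub (hconv v hva hvc)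
  · obtain ⟨u, h1, h2⟩ := hc
    exact ⟨u, Set.mem_univ _, h2 a (by simp) n3, h2 b (by simp) n2, h1⟩
  · obtain ⟨u, h1, h2⟩ := ha
    exact ⟨u, Set.mem_univ _, h2 b (by simp) n1.symm, h2 c (by simp) n3.symm, h1⟩

theorem f3_mid3 {G : SimpleGraph V} (h : Base G)
    (hB : ∀ a b c, F3I G a b c → ∃ s ∈ ({a, b, c} : Set V), ¬ F3T G {a, b, c} s)
    {a b c : V} (hI : F3I G a b c) :
    Mid G Set.univ a b c ∨ Mid G Set.univ b a c ∨ Mid G Set.univ a c b := by
  obtain ⟨s, hs, hsT⟩ := hB a b c hI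
  rcases hs with rfl | rfl | hs
  · right; left
    apply f3_mid h hB (f3_I_swap hI)
    rwa [Set.insert_comm]
  · left
    exact f3_mid h hB hI hsT
  · rw [Set.mem_singleton_iff] at hs
    subst hs
    right; right
    apply f3_mid h hB (f3_I_swap (f3_I_rev (f3_I_swap hI)))
    rwa [Set.pair_comm]

/-- The cyclic case is impossible. -/
theorem f3_cyc {G : SimpleGraph V} (h : Base G) {x y z w : V} (h1 : Mid G Set.univ x y w)
    (h2 : Mid G Set.univ y z w) (h3 : Mid G Set.univ z x w) : False := by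
  obtain ⟨u, hu1, hu2⟩ := (h.diff x y h1.ab h1.nab).nonempty
  have e1 : ¬ G.Adj u w := fun e => hu2 (h1.conv u (Set.mem_univ _) hu1.symm e).symm
  have e2 : G.Adj u z := by
    rcases h3.ray u (Set.mem_univ _) hu1.symm with e | e
    · exact e
    · exact absurd e e1
  rcases h2.ray u (Set.mem_univ _) e2 with e | e
  · exact hu2 e.symm
  · exact e1 e

/-- The transitive case. -/
theorem f3_trans {G : SimpleGraph V} (h : Base G)
    (hB : ∀ a b c, F3I G a b c → ∃ s ∈ ({a, b, c} : Set V), ¬ F3T G {a, b, c} s)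
    {x y z w : V} (h1 : Mid G Set.univ x y w)
    (h2 : Mid G Set.univ y z w) (h3 : Mid G Set.univ x z w) : Mid G Set.univ x y z := by
  have hI : F3I G x y z := ⟨h1.ab, h2.ab, h3.ab, h1.nab, h2.nab, h3.nab⟩
  rcases f3_mid3 h hB hI with h4 | h4 | h4
  · exact h4
  · exfalso
    obtain ⟨u, hu1, hu2⟩ := (h.diff x y h1.ab h1.nab).nonempty
    have e1 : ¬ G.Adj u w := fun e => hu2 (h1.conv u (Set.mem_univ _) hu1.symm e).symm
    rcases h4.ray u (Set.mem_univ _) hu1.symm with e | e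
    · exact hu2 e.symm
    · rcases h2.ray u (Set.mem_univ _) e with e | e
      · exact hu2 e.symm
      · exact e1 e
  · exfalso
    obtain ⟨u, hu1, hu2⟩ := (h.diff y z h2.ab h2.nab).nonempty
    have e1 : ¬ G.Adj u w := fun e => hu2 (h2.conv u (Set.mem_univ _) hu1.symm e).symm
    have e2 : G.Adj u x := by
      rcases h1.ray u (Set.mem_univ _) hu1.symm with e | e
      · exact e
      · exact absurd e e1
    exact hu2 (h4.conv u (Set.mem_univ _) e2 hu1.symm).symm

/-- Every independent 4-set has a trace of size 3. -/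
theorem f3_trace3 {G : SimpleGraph V} (h : Base G) (I : Finset V) (hI : Indep G I)
    (hc : I.card = 4) : ∃ s ∈ I, F3T G (I : Set V) s := by
  classical
  obtain ⟨z, c, hne, hzc⟩ := f2_nonadj h
  obtain ⟨J, hJ, hJc⟩ := (h.diff z c hne hzc).exists_subset_card_eq 3
  have hcJ : c ∉ J := fun e => hzc (hJ e).1
  have hK : Indep G (insert c J) := by
    intro x hx y hy hxy
    rcases Finset.mem_insert.1 hx with ex | hx'
    · rcases Finset.mem_insert.1 hy with ey | hy'
      · rw [ex, ey] at hxy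
        exact G.irrefl hxy
      · rw [ex] at hxy
        exact (hJ hy').2 hxy
    · rcases Finset.mem_insert.1 hy with ey | hy'
      · rw [ey] at hxy
        exact (hJ hx').2 hxy.symm
      · exact h.tf z x y (hJ hx').1 hxy (hJ hy').1
  have hKc : (insert c J).card = I.card := by
    rw [Finset.card_insert_of_notMem hcJ, hJc, hc]
  obtain ⟨φ, hφ⟩ := h.hW.indep hK hI hKc (by rw [hKc, hc]; norm_num)
  have hT : F3T G ((insert c J : Finset V) : Set V) c := by
    refine ⟨z, hzc, ?_⟩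
    intro s hs hsc
    rcases Finset.mem_insert.1 hs with e | hs
    · exact absurd e hsc
    · exact (hJ hs).1
  have h1 := f3_T_map φ hT
  rw [hφ] at h1
  refine ⟨φ c, ?_, h1⟩
  have : φ c ∈ (I : Set V) := by
    rw [← hφ]
    exact Set.mem_image_of_mem _ (by simp)
  exact this

theorem f3_quad {G : SimpleGraph V} (h : Base G)
    (hB : ∀ a b c, F3I G a b c → ∃ s ∈ ({a, b, c} : Set V), ¬ F3T G {a, b, c} s)
    (I : Finset V) (hI : Indep G I) (hc : I.card = 4) :
    ∃ a b c d, (I : Set V) = {a, b, c, d} ∧ Mid G Set.univ a b c ∧ Mid G Set.univ a b d ∧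
      Mid G Set.univ a c d ∧ Mid G Set.univ b c d := by
  classical
  obtain ⟨w, hw, u, huw, hu⟩ := f3_trace3 h I hI hc
  have hcard : (I.erase w).card = 3 := by
    rw [Finset.card_erase_of_mem hw, hc]
  obtain ⟨x, y, z, hxy, hxz, hyz, hE⟩ := Finset.card_eq_three.1 hcard
  have hIe : (I : Set V) = {x, y, z, w} := by
    have : I = insert w {x, y, z} := by
      rw [← hE, Finset.insert_erase hw]
    rw [this]
    ext t
    simp only [Finset.coe_insert, Finset.coe_singleton, Set.mem_insert_iff,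
      Set.mem_singleton_iff]
    tauto
  have mem : ∀ t ∈ ({x, y, z} : Finset V), t ∈ I ∧ t ≠ w := by
    intro t ht
    rw [← hE] at ht
    exact ⟨Finset.mem_of_mem_erase ht, Finset.ne_of_mem_erase ht⟩
  obtain ⟨mx, ex⟩ := mem x (by simp)
  obtain ⟨my, ey⟩ := mem y (by simp)
  obtain ⟨mz, ez⟩ := mem z (by simp)
  have ux := hu x mx ex
  have uy := hu y my ey
  have uz := hu z mz ez
  have hdir : ∀ s t, s ∈ I → t ∈ I → s ≠ t → s ≠ w → t ≠ w → G.Adj u s → G.Adj u t →
      Mid G Set.univ s t w ∨ Mid G Set.univ t s w := by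
    intro s t hs ht hst hsw htw hus hut
    rcases f3_mid3 h hB (a := s) (b := t) (c := w) ⟨hst, htw, hsw, hI s hs t ht, hI t ht w hw,
      hI s hs w hw⟩ with h1 | h1 | h1
    · exact Or.inl h1
    · exact Or.inr h1
    · exact absurd (h1.conv u (Set.mem_univ _) hus hut) huw
  have hfin : ∀ s t r, (I : Set V) = {s, t, r, w} → Mid G Set.univ s t w →
      Mid G Set.univ t r w → Mid G Set.univ s r w →
      ∃ a b c d, (I : Set V) = {a, b, c, d} ∧ Mid G Set.univ a b c ∧ Mid G Set.univ a b d ∧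
      Mid G Set.univ a c d ∧ Mid G Set.univ b c d :=
    fun s t r hs h1 h2 h3 => ⟨s, t, r, w, hs, f3_trans h hB h1 h2 h3, h1, h3, h2⟩
  rcases hdir x y mx my hxy ex ey ux uy with h1 | h1 <;>
    rcases hdir y z my mz hyz ey ez uy uz with h2 | h2 <;>
    rcases hdir x z mx mz hxz ex ez ux uz with h3 | h3
  · exact hfin x y z hIe h1 h2 h3
  · exact (f3_cyc h h1 h2 h3).elim
  · exact hfin x z y (by rw [hIe]; ext t; simp only [Set.mem_insert_iff]; tauto) h3 h2 h1
  · exact hfin z x y (by rw [hIe]; ext t; simp only [Set.mem_insert_iff]; tauto) h3 h1 h2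
  · exact hfin y x z (by rw [hIe]; ext t; simp only [Set.mem_insert_iff]; tauto) h1 h3 h2
  · exact hfin y z x (by rw [hIe]; ext t; simp only [Set.mem_insert_iff]; tauto) h2 h3 h1
  · exact (f3_cyc h h3 h2 h1).elim
  · exact hfin z y x (by rw [hIe]; ext t; simp only [Set.mem_insert_iff]; tauto) h2 h1 h3

theorem ray_or_traces {G : SimpleGraph V} (h : Base G) : RayOn G Set.univ ∨
    ∀ a b c, a ≠ b → b ≠ c → a ≠ c → ¬ G.Adj a b → ¬ G.Adj b c → ¬ G.Adj a c →
      ∃ u, G.Adj u a ∧ G.Adj u b ∧ ¬ G.Adj u c := by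
  classical
  by_cases hA : ∃ a b c, F3I G a b c ∧ ∀ s ∈ ({a, b, c} : Set V), F3T G {a, b, c} s
  · right
    obtain ⟨a, b, c, hI, hT⟩ := hA
    intro a' b' c' h1 h2 h3 h4 h5 h6
    obtain ⟨φ, hφ⟩ := f3_triple h hI ⟨h1, h2, h3, h4, h5, h6⟩
    have hc : c' ∈ φ '' ({a, b, c} : Set V) := by
      rw [hφ]
      simp
    obtain ⟨s, hs, rfl⟩ := hc
    have hTs := f3_T_map φ (hT s hs)
    rw [hφ] at hTs
    obtain ⟨u, hu1, hu2⟩ := hTs
    exact ⟨u, hu2 a' (by simp) h3, hu2 b' (by simp) h2, hu1⟩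
  · left
    have hB : ∀ a b c, F3I G a b c → ∃ s ∈ ({a, b, c} : Set V), ¬ F3T G {a, b, c} s := by
      intro a b c hI
      by_contra hcon
      push Not at hcon
      exact hA ⟨a, b, c, hI, hcon⟩
    refine ⟨?_, ?_, ?_, ?_, ?_, ?_, ?_, ?_⟩
    · intro a _ b _ c _
      exact h.tf a b c
    · intro u _ v _ huv hn
      simpa using h.inter u v huv hn
    · intro u _ v _ huv hn
      simpa using h.diff u v huv hn
    · intro I _ hI
      simpa using h.common I hI
    · intro a _ b _ c _ h1 h2 h3 h4 h5 h6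
      exact f3_mid3 h hB ⟨h1, h2, h3, h4, h5, h6⟩
    · intro I _ hI hc
      exact f3_quad h hB I hI hc
    · intro c _ e _ hce hn
      obtain ⟨v⟩ := h.ne
      obtain ⟨J, hJ, hJc⟩ := (h.infdeg v).exists_subset_card_eq 4
      have hJI : Indep G J := fun x hx y hy hxy => h.tf v x y (hJ hx) hxy (hJ hy)
      obtain ⟨a, b, c', d, -, m1, m2, m3, m4⟩ := f3_quad h hB J hJI hJc
      obtain ⟨φ, hφ⟩ := h.hW.pair m1.bc hce m1.nbc hn
      have hu : φ '' (Set.univ : Set V) = Set.univ := by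
        rw [Set.image_univ]
        exact Set.range_eq_univ.2 φ.surjective
      have hmap : ∀ x y z, Mid G Set.univ x y z → Mid G Set.univ (φ x) (φ y) (φ z) := by
        intro x y z hm
        have := hm.map φ φ.injective (fun _ _ => φ.map_adj_iff)
        rwa [hu] at this
      rcases hφ with ⟨e1, e2⟩ | ⟨e1, e2⟩
      · refine ⟨φ a, Set.mem_univ _, ?_⟩
        rw [← e1, ← e2]
        exact hmap _ _ _ m1
      · refine ⟨φ d, Set.mem_univ _, ?_⟩
        rw [← e1, ← e2]
        exact hmap _ _ _ m4.symm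
    · obtain ⟨a, b, c, d, h1, h2, h3, h4, h5, h6⟩ := two_k2 h
      exact ⟨a, Set.mem_univ _, b, Set.mem_univ _, c, Set.mem_univ _, d, Set.mem_univ _,
        h1, h2, h3, h4, h5, h6⟩

end SetHom
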