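import Pool.Agent.Helper25.SH.Defs2

/-! # MP_506470_co, module F2: an induced `2K_2` -/

namespace SetHom

variable {V : Type}

/-- Two distinct non-adjacent vertices. -/
theorem f2_nonadj {G : SimpleGraph V} (h : Base G) : ∃ a c, a ≠ c ∧ ¬ G.Adj a c := by
  obtain ⟨v⟩ := h.ne
  obtain ⟨a, ha⟩ := (h.infdeg v).nonempty
  obtain ⟨c, hc, hne⟩ := ((h.infdeg v).sdiff (Set.finite_singleton a)).nonempty
  refine ⟨a, c, fun e => hne e.symm, fun hac => ?_⟩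
  exact h.tf v a c ha hac hc

theorem two_k2 {G : SimpleGraph V} (h : Base G) :
    ∃ a b c d, G.Adj a b ∧ G.Adj c d ∧ ¬ G.Adj a c ∧ ¬ G.Adj a d ∧ ¬ G.Adj b c ∧ ¬ G.Adj b d := by
  by_contra hcon
  push Not at hcon
  have hr : ∀ a c q r, a ≠ c → ¬ G.Adj a c → G.Adj c q → ¬ G.Adj a q → G.Adj a r →
      ¬ G.Adj c r → G.Adj q r := by
    intro a c q r hne hac hcq haq har hcr
    by_contra hqr
    exact hac (hcon r a q c har.symm hcq.symm (fun e => hqr e.symm) (fun e => hcr e.symm) haq)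
  obtain ⟨a, c, hne, hac⟩ := f2_nonadj h
  obtain ⟨p, hpa, hpc⟩ := (h.inter a c hne hac).nonempty
  have hca : ¬ G.Adj c a := fun e => hac e.symm
  obtain ⟨q1, hq1c, hq1a⟩ := (h.diff c a hne.symm hca).nonempty
  obtain ⟨q2, ⟨hq2c, hq2a⟩, hq12'⟩ :=
    ((h.diff c a hne.symm hca).sdiff (Set.finite_singleton q1)).nonempty
  have hq12 : q2 ≠ q1 := hq12'
  have hq : ¬ G.Adj q1 q2 := fun e => h.tf c q1 q2 hq1c e hq2c
  have hq' : ¬ G.Adj q2 q1 := fun e => hq e.symm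
  obtain ⟨u1, hu1, hu1'⟩ := (h.diff q1 q2 hq12.symm hq).nonempty
  obtain ⟨u2, hu2, hu2'⟩ := (h.diff q2 q1 hq12 hq').nonempty
  have hu : G.Adj u2 u1 := hr q1 q2 u2 u1 hq12.symm hq hu2 hu2' hu1 hu1'
  have hn1 : ¬ G.Adj u1 a := by
    intro e
    have hc1 : ¬ G.Adj c u1 := fun e' => h.tf c u1 q1 e' hu1.symm hq1c
    have := hr a c q2 u1 hne hac hq2c hq2a e.symm hc1
    exact hu1' this
  have hn2 : ¬ G.Adj u2 a := by
    intro e
    have hc2 : ¬ G.Adj c u2 := fun e' => h.tf c u2 q2 e' hu2.symm hq2c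
    have := hr a c q1 u2 hne hac hq1c hq1a e.symm hc2
    exact hu2' this
  have hp : ∀ q u, G.Adj c q → ¬ G.Adj a q → G.Adj q u → ¬ G.Adj u a → G.Adj u p := by
    intro q u hcq haq hqu hua
    by_contra hup
    have hqp : ¬ G.Adj q p := fun e => h.tf c q p hcq e hpc
    exact hqp (hcon u q a p hqu.symm hpa hua hup (fun e => haq e.symm))
  exact h.tf u2 u1 p hu (hp q1 u1 hq1c hq1a hu1 hn1) (hp q2 u2 hq2c hq2a hu2 hn2)

end SetHom
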